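import Pool.Agent.UMG.StmtsB

/-!
# UMG block B, row PRM: permutation and concatenation of bundle lists
-/

set_option autoImplicit false

namespace Pool.Agent.UMG.B.H7

open Finset Pool.Agent.UMG Pool.Agent.UMG.B

theorem sn_refl {H : Type} (ν : H → ℕ) (g : Equiv.Perm H) : SN ν g ν g :=
  ⟨Equiv.refl _, fun _ => rfl, fun _ => rfl⟩

theorem sn_trans {H H' H'' : Type} {ν : H → ℕ} {g : Equiv.Perm H} {ν' : H' → ℕ}
    {g' : Equiv.Perm H'} {ν'' : H'' → ℕ} {g'' : Equiv.Perm H''} (h : SN ν g ν' g')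
    (h' : SN ν' g' ν'' g'') : SN ν g ν'' g'' := by
  obtain ⟨f, h1, h2⟩ := h
  obtain ⟨f', h1', h2'⟩ := h'
  refine ⟨f.trans f', fun x => ?_, fun x => ?_⟩
  · simp only [Equiv.trans_apply, h1', h1]
  · simp only [Equiv.trans_apply, h2', h2]

theorem sn_sum {H1 H1' H2 H2' : Type} {ν1 : H1 → ℕ} {g1 : Equiv.Perm H1} {ν1' : H1' → ℕ}
    {g1' : Equiv.Perm H1'} {ν2 : H2 → ℕ} {g2 : Equiv.Perm H2} {ν2' : H2' → ℕ}
    {g2' : Equiv.Perm H2'} (h1 : SN ν1 g1 ν1' g1') (h2 : SN ν2 g2 ν2' g2') :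
    SN (Sum.elim ν1 ν2) (Equiv.sumCongr g1 g2) (Sum.elim ν1' ν2') (Equiv.sumCongr g1' g2') := by
  obtain ⟨f1, a1, b1⟩ := h1
  obtain ⟨f2, a2, b2⟩ := h2
  refine ⟨Equiv.sumCongr f1 f2, ?_, ?_⟩
  · rintro (x | x)
    · exact a1 x
    · exact a2 x
  · rintro (x | x)
    · exact congrArg Sum.inl (b1 x)
    · exact congrArg Sum.inr (b2 x)

/-- the swap of the first two summands -/
def sw (A B C : Type) : A ⊕ (B ⊕ C) ≃ B ⊕ (A ⊕ C) where
  toFun x := match x with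
    | Sum.inl a => Sum.inr (Sum.inl a)
    | Sum.inr (Sum.inl b) => Sum.inl b
    | Sum.inr (Sum.inr c) => Sum.inr (Sum.inr c)
  invFun x := match x with
    | Sum.inl b => Sum.inr (Sum.inl b)
    | Sum.inr (Sum.inl a) => Sum.inl a
    | Sum.inr (Sum.inr c) => Sum.inr (Sum.inr c)
  left_inv x := by rcases x with a | b | c <;> rfl
  right_inv x := by rcases x with a | b | c <;> rfl

theorem sn_swap {A B C : Type} (ν1 : A → ℕ) (g1 : Equiv.Perm A) (ν2 : B → ℕ) (g2 : Equiv.Perm B)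
    (ν3 : C → ℕ) (g3 : Equiv.Perm C) :
    SN (Sum.elim ν1 (Sum.elim ν2 ν3)) (Equiv.sumCongr g1 (Equiv.sumCongr g2 g3))
      (Sum.elim ν2 (Sum.elim ν1 ν3)) (Equiv.sumCongr g2 (Equiv.sumCongr g1 g3)) := by
  refine ⟨sw A B C, ?_, ?_⟩
  · rintro (x | x | x) <;> rfl
  · rintro (x | x | x) <;> rfl

theorem sn_assoc {A B C : Type} (ν1 : A → ℕ) (g1 : Equiv.Perm A) (ν2 : B → ℕ) (g2 : Equiv.Perm B)
    (ν3 : C → ℕ) (g3 : Equiv.Perm C) :
    SN (Sum.elim ν1 (Sum.elim ν2 ν3)) (Equiv.sumCongr g1 (Equiv.sumCongr g2 g3))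
      (Sum.elim (Sum.elim ν1 ν2) ν3) (Equiv.sumCongr (Equiv.sumCongr g1 g2) g3) := by
  refine ⟨(Equiv.sumAssoc A B C).symm, ?_, ?_⟩
  · rintro (x | x | x) <;> rfl
  · rintro (x | x | x) <;> rfl

theorem sn_empty {A C : Type} [IsEmpty A] (ν1 : A → ℕ) (g1 : Equiv.Perm A) (ν3 : C → ℕ)
    (g3 : Equiv.Perm C) : SN ν3 g3 (Sum.elim ν1 ν3) (Equiv.sumCongr g1 g3) := by
  refine ⟨(Equiv.emptySum A C).symm, fun x => rfl, fun x => rfl⟩

instance : IsEmpty (HB []) := inferInstanceAs (IsEmpty Empty)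

theorem prm : PrmStmt := by
  refine ⟨fun L L' h => ?_, fun L1 L2 => ?_⟩
  · induction h with
    | nil => exact sn_refl _ _
    | cons x _ ih => exact sn_sum (sn_refl (nu1 x) (finRotate (bsz x))) ih
    | swap x y l =>
      exact sn_swap (nu1 y) (finRotate (bsz y)) (nu1 x) (finRotate (bsz x)) (nuB l) (gB l)
    | trans _ _ ih1 ih2 => exact sn_trans ih1 ih2
  · induction L1 with
    | nil => exact sn_empty (nuB []) (gB []) (nuB L2) (gB L2)
    | cons b L ih =>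
      exact sn_trans (sn_sum (sn_refl (nu1 b) (finRotate (bsz b))) ih)
        (sn_assoc (nu1 b) (finRotate (bsz b)) (nuB L) (gB L) (nuB L2) (gB L2))

end Pool.Agent.UMG.B.H7
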