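import Pool.Agent.UMG.StmtsD

/-!
# UMG block D, row UNA: unranking of the codes
-/

set_option autoImplicit false

namespace Pool.Agent.UMG.D.H7

open Finset Pool.Agent.UMG

theorem wt_shift {R : Type} [CommSemiring R] (x : ℕ → R) : ∀ (c : Code) (v v' : ℕ),
    ((bund v c).map (fun b => x (bsz b))).prod = ((bund v' c).map (fun b => x (bsz b))).prod
  | [], _, _ => rfl
  | (l, p) :: c, v, v' => by
    simp only [bund, List.map_append, List.map_map, List.prod_append]
    rw [wt_shift x c (v + l) (v' + l)]
    rfl

theorem wt_cons {R : Type} [CommSemiring R] (x : ℕ → R) (l : ℕ) (p : List ℕ) (c : Code) :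
    wt x ((l, p) :: c) = (p.map (fun i => x (l * i))).prod * wt x c := by
  unfold wt
  simp only [bund, List.map_append, List.map_map, List.prod_append]
  rw [wt_shift x c (0 + l) 0]
  rfl

theorem una_aux (hPck : PckStmt) (hMod : ModStmt) (hUne : UneStmt) (x : ℕ → ℕ) : ∀ (n : ℕ) (d : List ℕ),
    d.length ≤ n → ∀ (W : ℕ) (Ψ : Code → ℕ → ℕ → ℕ),
    ∑ u ∈ range (W * Aint x d), Ψ (unA x d W u).1 (unA x d W u).2.1 (unA x d W u).2.2 =
      gsum d (fun c => ∑ z ∈ range (W * wt x c), Ψ c (W * wt x c) z) := by
  intro n
  induction n with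
  | zero =>
    intro d hd W Ψ
    have hd0 : d = [] := List.length_eq_zero_iff.1 (Nat.le_zero.1 hd)
    subst hd0
    rw [gsum, Aint]
    simp only [unA, wt, bund, List.map_nil, List.prod_nil, mul_one]
  | succ n ih =>
    intro d hd W Ψ
    match d, hd with
    | [], _ =>
      rw [gsum, Aint]
      simp only [unA, wt, bund, List.map_nil, List.prod_nil, mul_one]
    | k :: t, hd =>
      have hlen : ∀ i, (t.drop i).length ≤ n := by
        intro i
        simp only [List.length_drop, List.length_cons] at hd ⊢
        omega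
      set w : ℕ → ℕ := fun i => (t.count k).descFactorial i * k.factorial ^ i * vA x k t W i with hw
      -- the functions after the choice of `i`
      set f : ℕ → ℕ → ℕ := fun i z =>
        Ψ ((i + 1, (unE x (i + 1) (Aint x (t.drop i)) k W z).1) ::
            (unA x (t.drop i) (unE x (i + 1) (Aint x (t.drop i)) k W z).2.1
              (unE x (i + 1) (Aint x (t.drop i)) k W z).2.2).1)
          (unA x (t.drop i) (unE x (i + 1) (Aint x (t.drop i)) k W z).2.1
              (unE x (i + 1) (Aint x (t.drop i)) k W z).2.2).2.1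
          (unA x (t.drop i) (unE x (i + 1) (Aint x (t.drop i)) k W z).2.1
              (unE x (i + 1) (Aint x (t.drop i)) k W z).2.2).2.2 with hf
      have h1 : W * Aint x (k :: t) = cum w (t.count k + 1) := by
        rw [Aint, cum, mul_sum]
        refine sum_congr rfl fun i _ => ?_
        simp only [hw, vA, Nat.cast_id]
        ring
      have h2 : ∀ u, Ψ (unA x (k :: t) W u).1 (unA x (k :: t) W u).2.1 (unA x (k :: t) W u).2.2 =
          f (pick (t.count k + 1) w u) ((u - cum w (pick (t.count k + 1) w u)) %
            vA x k t W (pick (t.count k + 1) w u)) := by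
        intro u
        rw [unA]
      rw [h1, sum_congr rfl fun u _ => h2 u,
        hPck (t.count k + 1) w (fun i z => f i (z % vA x k t W i)), gsum]
      refine sum_congr rfl fun i _ => ?_
      have h3 : ∑ z ∈ range (w i), f i (z % vA x k t W i) =
          (t.count k).descFactorial i * k.factorial ^ i * ∑ z ∈ range (vA x k t W i), f i z :=
        hMod _ _ _
      rw [h3, Nat.cast_id, Nat.cast_id]
      congr 1
      have h4 := hUne x (i + 1) (Aint x (t.drop i)) k W (fun p W' u' =>
        Ψ ((i + 1, p) :: (unA x (t.drop i) W' u').1) (unA x (t.drop i) W' u').2.1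
          (unA x (t.drop i) W' u').2.2)
      have h5 : ∑ z ∈ range (vA x k t W i), f i z = ∑ u ∈ range (W * (Eint x (i + 1) k * Aint x (t.drop i))),
          (fun p W' u' => Ψ ((i + 1, p) :: (unA x (t.drop i) W' u').1) (unA x (t.drop i) W' u').2.1
            (unA x (t.drop i) W' u').2.2) (unE x (i + 1) (Aint x (t.drop i)) k W u).1
            (unE x (i + 1) (Aint x (t.drop i)) k W u).2.1 (unE x (i + 1) (Aint x (t.drop i)) k W u).2.2 :=
        rfl
      rw [h5, h4]
      congr 1
      funext p
      have h6 := ih (t.drop i) (hlen i) (W * (p.map (fun j => x ((i + 1) * j))).prod)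
        (fun c W' u' => Ψ ((i + 1, p) :: c) W' u')
      refine h6.trans ?_
      congr 1
      funext c
      rw [wt_cons]
      simp only [mul_assoc]

theorem una (hPck : PckStmt) (hMod : ModStmt) (hUne : UneStmt) : UnaStmt := fun x d W Ψ =>
  una_aux hPck hMod hUne x d.length d le_rfl W Ψ

end Pool.Agent.UMG.D.H7
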